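import Pool.Agent.Y50.RD.Stm

/-! Project RD, job RD-PROP: the new presentation is proper (helper702). -/

set_option autoImplicit false

namespace Pool.Agent.Y702.RD

open Turing CategoryTheory
open Pool.Agent.H333R3.DG Pool.Agent.Y50.RD

section

variable {Γ Λ : Type} [Inhabited Γ] [Inhabited Λ] [Fintype Γ] [Fintype Λ]

theorem act_ne (l' : Λ) (i : Fin 3) (y x : TL Γ) (st : TM0.Stmt Γ) :
    act l' i y x st ≠ [] := by
  rcases st with (_ | _) | c <;> rcases x with x | x <;> rcases y with y | y <;> simp [act]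

theorem en_lt' (s : Sy Γ Λ) : en s < nm Γ Λ := en_lt s

theorem mem_en {W : List (Sy Γ Λ)} {a : ℕ} (h : a ∈ W.map en) : a < nm Γ Λ := by
  obtain ⟨s, -, rfl⟩ := List.mem_map.1 h
  exact en_lt' s

theorem mem_sft {N : ℕ} {w : List ℕ} {a : ℕ} (h : a ∈ w.map (sft N)) : N + 2 ≤ a := by
  obtain ⟨s, -, rfl⟩ := List.mem_map.1 h
  unfold sft
  omega

theorem sft_inj (N : ℕ) : Function.Injective (sft N) := by
  intro a b h
  unfold sft at h
  omega

theorem en_ne_sft {W : List (Sy Γ Λ)} {w : List ℕ} (hw : w ≠ [])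
    (h : W.map en = w.map (sft (nm Γ Λ))) : False := by
  obtain ⟨b, w, rfl⟩ := List.exists_cons_of_ne_nil hw
  have h1 : sft (nm Γ Λ) b ∈ W.map en := by rw [h]; simp
  have h2 := mem_en h1
  have h3 : sft (nm Γ Λ) b ∈ (b :: w).map (sft (nm Γ Λ)) := by simp
  have h4 := mem_sft h3
  omega

theorem rhq_cases (M : TM0.Machine Γ Λ) (v : List ℕ) (l : Λ) (i : Fin 3) (y x : TL Γ) :
    (nm Γ Λ ∈ rhq M v l i y x) ∨
      ∃ p : Λ × TM0.Stmt Γ, rhq M v l i y x = (act p.1 i y x p.2).map en := by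
  unfold rhq
  rcases M l (rd x) with _ | p
  · left
    simp
  · right
    exact ⟨p, rfl⟩

theorem rhq_lhs (M : TM0.Machine Γ Λ) (v : List ℕ) {l l₂ : Λ} {i i₂ : Fin 3}
    {y x y₂ x₂ : TL Γ} (h : rhq M v l i y x = (lhs l₂ i₂ y₂ x₂).map en) : i₂ = i + 1 := by
  rcases rhq_cases M v l i y x with h1 | ⟨p, h1⟩
  · rw [h] at h1
    exact absurd (mem_en h1) (lt_irrefl _)
  · rw [h1] at h
    have h2 := map_en_inj h
    have h3 := clk_lhs l₂ i₂ y₂ x₂
    rw [← h2, clk_act] at h3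
    simpa using h3.symm

theorem rhq_word (M : TM0.Machine Γ Λ) (Q : Pres) (v : List ℕ) (hv : IsWord Q.1 v) (l : Λ)
    (i : Fin 3) (y x : TL Γ) : IsWord (nm Γ Λ + 2 + Q.1) (rhq M v l i y x) := by
  unfold rhq
  rcases M l (rd x) with _ | p
  · refine ⟨by simp, ?_⟩
    intro a ha
    simp only [List.mem_append, List.mem_cons, List.not_mem_nil, or_false, List.mem_map] at ha
    rcases ha with ((rfl | rfl) | ⟨b, hb, rfl⟩) | (rfl | rfl)
    · have := en_lt' (Sum.inl y : Sy Γ Λ)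
      omega
    · omega
    · have := hv.2 b hb
      unfold sft
      omega
    · omega
    · have := en_lt' (Sum.inl x : Sy Γ Λ)
      omega
  · refine ⟨by simpa using act_ne _ _ _ _ _, ?_⟩
    intro a ha
    have := mem_en ha
    omega

theorem q_word {N n : ℕ} {w : List ℕ} (hw : IsWord n w) : IsWord (N + 2 + n) (w.map (sft N)) := by
  refine ⟨by simpa using hw.1, ?_⟩
  intro a ha
  obtain ⟨b, hb, rfl⟩ := List.mem_map.1 ha
  have := hw.2 b hb
  unfold sft
  omega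

end

/-- RD-PROP -/
theorem t : S_prop := by
  intro Γ Λ _ _ _ _ M Q v hQ hv r hr
  have hmem : ∀ r : List ℕ × List ℕ, r ∈ (pq M Q v).2 ↔
      (∃ (l : Λ) (i : Fin 3) (y x : TL Γ), r = ((lhs l i y x).map en, rhq M v l i y x)) ∨
      ∃ q ∈ Q.2, r = (q.1.map (sft (nm Γ Λ)), q.2.map (sft (nm Γ Λ))) := by
    intro r
    unfold pq mrules qrules
    simp only [List.mem_append, List.mem_map, Finset.mem_toList, Finset.mem_univ, true_and]
    constructor
    · rintro (⟨⟨⟨l, i⟩, y, x⟩, rfl⟩ | ⟨q, hq, rfl⟩)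
      · exact Or.inl ⟨l, i, y, x, rfl⟩
      · exact Or.inr ⟨q, hq, rfl⟩
    · rintro (⟨l, i, y, x, rfl⟩ | ⟨q, hq, rfl⟩)
      · exact Or.inl ⟨⟨⟨l, i⟩, y, x⟩, rfl⟩
      · exact Or.inr ⟨q, hq, rfl⟩
  have inj := List.map_injective_iff.2 (sft_inj (nm Γ Λ))
  rcases (hmem r).1 hr with ⟨l, i, y, x, rfl⟩ | ⟨q, hq, rfl⟩
  · refine ⟨⟨by simp [lhs], fun a ha => ?_⟩, rhq_word M Q v hv l i y x, ?_, ?_⟩
    · have := mem_en ha
      change a < nm Γ Λ + 2 + Q.1
      omega
    · intro h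
      have := rhq_lhs M v h.symm
      fin_cases i <;> simp at this
    · intro h
      rcases (hmem _).1 h with ⟨l₂, i₂, y₂, x₂, h⟩ | ⟨q, hq, h⟩
      · simp only [Prod.mk.injEq] at h
        obtain ⟨h3, h4⟩ := h
        have h5 := rhq_lhs M v h3
        have h6 := rhq_lhs M v h4.symm
        rw [h5] at h6
        fin_cases i <;> simp at h6
      · simp only [Prod.mk.injEq] at h
        exact en_ne_sft (hQ q hq).2.1.1 h.2
  · obtain ⟨h1, h2, h3, h4⟩ := hQ q hq
    refine ⟨q_word h1, q_word h2, fun h => h3 (inj h), ?_⟩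
    intro h
    rcases (hmem _).1 h with ⟨l₂, i₂, y₂, x₂, h⟩ | ⟨q', hq', h⟩
    · simp only [Prod.mk.injEq] at h
      exact en_ne_sft h2.1 h.1.symm
    · simp only [Prod.mk.injEq] at h
      have e1 := inj h.1
      have e2 := inj h.2
      apply h4
      rw [e1, e2]
      exact hq'

end Pool.Agent.Y702.RD
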